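import Pool.Agent.H8.TX.Targets

/-!
# tx board, PDA: the degree of an algebraic function on a curve
helper11
-/

set_option autoImplicit false

open MvPolynomial
open Pool.Agent.H12.ZD (pmap)
open Pool.Agent.H18.HIT
open Pool.Agent.H8.ZA (HFam Const NA)
open Pool.Agent.H8.TD (lc dg Wsp Cop dh)
open Pool.Agent.H8.TX

namespace Pool.Agent.H11.TX

/-- polynomials of degree at most `n` -/
theorem mem_Wsp {κ C : Type} [Field κ] [Field C] [Algebra κ C] {a b : ℕ} (φ : Fin a → C)
    (ψ : Fin b → C) (n : ℕ) (P : MvPolynomial (Fin a) κ) (h : P.totalDegree ≤ n) :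
    aeval φ P ∈ Wsp κ φ ψ n 0 := by
  have h1 : aeval φ P = ∑ m ∈ P.support, algebraMap κ C (coeff m P) *
      m.prod fun i e => φ i ^ e := aeval_def φ P ▸ eval₂_eq _ _ _
  rw [h1]
  refine Submodule.sum_mem _ fun m hm => ?_
  rw [← Algebra.smul_def]
  apply Submodule.smul_mem
  apply Submodule.subset_span
  refine ⟨fun i => m i, fun _ => 0, ?_, ?_, ?_⟩
  · have h2 := (le_totalDegree hm).trans h
    rw [Finsupp.sum_fintype _ _ (fun _ => rfl)] at h2
    exact h2
  · simp
  · rw [Finsupp.prod_fintype _ _ (fun i => pow_zero _)]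
    simp


theorem pf_PDA (hLOW : Pool.Agent.H8.TD.T_LOW) (hCLZ : Pool.Agent.H8.TD.T_CLZ) : T_PDA := by
  intro k κ C _ _ _ _ _ _ _ _ _ a φ z M δ n Cf hfg htrs hM hP hne hrel
  classical
  by_cases hfin : FiniteDimensional (IntermediateField.adjoin κ {z}) C
  swap
  · have h1 : dg κ {z} = 0 := Module.finrank_of_not_finite hfin
    rw [h1]
    exact Nat.zero_le _
  have htr : Transcendental κ z := by
    intro halg
    obtain ⟨y, hy⟩ := htrs
    apply hy
    have h1 : FiniteDimensional κ (IntermediateField.adjoin κ {z}) :=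
      IntermediateField.adjoin.finiteDimensional halg.isIntegral
    have h2 : FiniteDimensional κ C :=
      FiniteDimensional.trans κ (IntermediateField.adjoin κ {z}) C
    exact (Algebra.IsAlgebraic.of_finite κ C).isAlgebraic y
  obtain ⟨d, b⟩ : ∃ d : ℕ, Nonempty (Module.Basis (Fin d) (IntermediateField.adjoin κ {z}) C) :=
    ⟨_, ⟨Module.finBasis _ _⟩⟩
  obtain ⟨b⟩ := b
  obtain ⟨R, hR⟩ : ∃ R : Subalgebra κ C, R = Algebra.adjoin κ
      (Set.range φ ∪ Set.range b ∪ {z}) := ⟨_, rfl⟩
  have hRfg : R.FG := by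
    rw [Subalgebra.fg_def]
    exact ⟨_, ((Set.finite_range φ).union (Set.finite_range b)).union (Set.finite_singleton _),
      hR.symm⟩
  have hφ : ∀ i, φ i ∈ R := fun i => by
    rw [hR]
    exact Algebra.subset_adjoin (Or.inl (Or.inl ⟨i, rfl⟩))
  have hb : ∀ i, b i ∈ R := fun i => by
    rw [hR]
    exact Algebra.subset_adjoin (Or.inl (Or.inr ⟨i, rfl⟩))
  have hzR : z ∈ R := by
    rw [hR]
    exact Algebra.subset_adjoin (Or.inr rfl)
  have hpol : ∀ T : MvPolynomial (Fin a) κ, aeval φ T ∈ R := by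
    intro T
    induction T using MvPolynomial.induction_on with
    | C c =>
      rw [aeval_C]
      exact Subalgebra.algebraMap_mem _ _
    | add p q hp hq =>
      rw [map_add]
      exact add_mem hp hq
    | mul_X p i hp =>
      rw [map_mul, aeval_X]
      exact mul_mem hp (hφ i)
  have hadj : IntermediateField.adjoin κ (R : Set C) = ⊤ := by
    rw [eq_top_iff]
    intro x _
    rw [← b.sum_repr x]
    refine sum_mem fun i _ => ?_
    rw [Algebra.smul_def]
    refine mul_mem ?_ (IntermediateField.subset_adjoin κ _ (hb i))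
    have h1 : IntermediateField.adjoin κ {z} ≤ IntermediateField.adjoin κ (R : Set C) :=
      IntermediateField.adjoin_simple_le_iff.2 (IntermediateField.subset_adjoin κ _ hzR)
    exact h1 (b.repr x i).2
  have hbad := hLOW κ C R ⟨z, hzR⟩ hRfg hadj htr hfin
  -- the polynomial
  obtain ⟨p, hp⟩ : ∃ p : Polynomial C, p = ∑ j ∈ Finset.range (n + 1),
      Polynomial.C (aeval φ (Cf j)) * Polynomial.X ^ j := ⟨_, rfl⟩
  have hp0 : p ≠ 0 := by
    intro h
    have h1 : p.coeff n = aeval φ (Cf n) := by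
      rw [hp, Polynomial.finsetSum_coeff, Finset.sum_eq_single n]
      · rw [Polynomial.coeff_C_mul, Polynomial.coeff_X_pow, if_pos rfl, mul_one]
      · intro j _ hj
        rw [Polynomial.coeff_C_mul, Polynomial.coeff_X_pow, if_neg (Ne.symm hj), mul_zero]
      · intro h
        exact absurd (Finset.mem_range.2 (Nat.lt_succ_self n)) h
    rw [h, Polynomial.coeff_zero] at h1
    exact hne h1.symm
  have hroots : {x : C | p.IsRoot x}.Finite := Polynomial.finite_setOfPred_isRoot hp0
  obtain ⟨c, hc⟩ := ((hbad.preimage (f := algebraMap k κ)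
    (algebraMap k κ).injective.injOn).union (hroots.preimage (f := algebraMap k C)
    (algebraMap k C).injective.injOn)).infinite_compl.nonempty
  rw [Set.compl_union] at hc
  have hc' : Module.finrank κ (R ⧸ Ideal.span {(⟨z, hzR⟩ : R) -
      algebraMap κ R (algebraMap k κ c)}) = dg κ {z} := by
    by_contra h
    exact hc.1 h
  have hc2 : p.eval (algebraMap k C c) ≠ 0 := fun h => hc.2 h
  rw [← hc']
  -- the section
  obtain ⟨Q, hQ⟩ : ∃ Q : MvPolynomial (Fin a) κ, Q = ∑ j ∈ Finset.range (n + 1),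
      MvPolynomial.C (algebraMap k κ c ^ j) * Cf j := ⟨_, rfl⟩
  have hQe : aeval φ Q = p.eval (algebraMap k C c) := by
    rw [hQ, hp, map_sum, Polynomial.eval_finsetSum]
    refine Finset.sum_congr rfl fun j _ => ?_
    rw [map_mul, aeval_C, Polynomial.eval_mul, Polynomial.eval_C, Polynomial.eval_pow,
      Polynomial.eval_X, map_pow, ← IsScalarTower.algebraMap_apply, mul_comm]
  obtain ⟨S, hS⟩ : ∃ S : R, (S : C) = aeval φ Q := ⟨⟨_, hpol _⟩, rfl⟩
  have hS0 : S ≠ 0 := by
    intro h
    rw [h, ZeroMemClass.coe_zero, hQe] at hS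
    exact hc2 hS.symm
  have hdvd : (⟨z, hzR⟩ : R) - algebraMap κ R (algebraMap k κ c) ∣ S := by
    have h1 : S = - ∑ j ∈ Finset.range (n + 1), (⟨aeval φ (Cf j), hpol _⟩ : R) *
        ((⟨z, hzR⟩ : R) ^ j - algebraMap κ R (algebraMap k κ c) ^ j) := by
      apply Subtype.ext
      have h2 : ((∑ j ∈ Finset.range (n + 1), (⟨aeval φ (Cf j), hpol _⟩ : R) *
          ((⟨z, hzR⟩ : R) ^ j - algebraMap κ R (algebraMap k κ c) ^ j) : R) : C) =
          ∑ j ∈ Finset.range (n + 1), aeval φ (Cf j) *
            (z ^ j - algebraMap κ C (algebraMap k κ c) ^ j) := by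
        rw [AddSubmonoidClass.coe_finsetSum]
        rfl
      rw [NegMemClass.coe_neg, h2, hS, hQ, map_sum]
      simp only [mul_sub, Finset.sum_sub_distrib]
      rw [hrel, zero_sub, neg_neg]
      refine Finset.sum_congr rfl fun j _ => ?_
      rw [map_mul, aeval_C, map_pow, mul_comm]
    rw [h1]
    exact (Finset.dvd_sum fun j _ => Dvd.dvd.mul_left (sub_dvd_pow_sub_pow _ _ j) _).neg_right
  have hdeg : Q.totalDegree ≤ δ := by
    rw [hQ]
    refine totalDegree_finsetSum_le fun j _ => ?_
    refine (totalDegree_mul _ _).trans ?_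
    rw [totalDegree_C, zero_add]
    exact hP j
  obtain ⟨hf1, hfinal⟩ := hCLZ k κ C a 0 φ (fun i => i.elim0) M (dg κ {(0 : C)}) δ 0 R hfg hRfg hφ
    (fun i => i.elim0) hM (fun s => by
      have h1 : lc s (fun i : Fin 0 => (i.elim0 : C)) = 0 := by
        unfold Pool.Agent.H8.TD.lc
        exact Finset.sum_of_isEmpty _
      rw [h1]) S (by
      rw [hS]
      exact mem_Wsp φ _ δ _ hdeg) hS0
  rw [zero_mul, add_zero] at hfinal
  refine le_trans ?_ hfinal
  have hle : Ideal.span {S} ≤ Ideal.span {(⟨z, hzR⟩ : R) -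
      algebraMap κ R (algebraMap k κ c)} := by
    rw [Ideal.span_singleton_le_span_singleton]
    exact hdvd
  exact LinearMap.finrank_le_finrank_of_surjective
    (f := (Ideal.Quotient.factorₐ κ hle).toLinearMap) (Ideal.Quotient.factor_surjective hle)

end Pool.Agent.H11.TX
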